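import Pool.Agent.Work.MP_2eb777_ag.Main

set_option autoImplicit false

open CategoryTheory CategoryTheory.Limits AlgebraicGeometry

namespace Pool.Agent.Results.MP_2eb777_ag.AffineLineInMg

open Pool.Agent.Work.MP_2eb777_ag

/-- For every `g ≥ 2` the coarse moduli space of smooth projective complex curves of genus `g`
contains an affine line: there is a morphism over the complex numbers from the affine line to it
which takes different values at the points `0` and `1`. -/
theorem result (g : ℕ) (hg : 2 ≤ g) (𝓜 : CoarseModuliSpace g) :
    ∃ f : AffLine ⟶ 𝓜.M, f ≫ 𝓜.str = AffLine.str ∧ AffLine.pt 0 ≫ f ≠ AffLine.pt 1 ≫ f :=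
  main g hg 𝓜

end Pool.Agent.Results.MP_2eb777_ag.AffineLineInMg
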