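import Pool.Agent.Work.MP_2eb777_ag.Q1.NonConst

set_option autoImplicit false

open CategoryTheory CategoryTheory.Limits AlgebraicGeometry

namespace Pool.Agent.Results.MP_2eb777_ag.ProjLineInM6

open Pool.Agent.Work.MP_2eb777_ag

/-- The coarse moduli space of smooth projective complex curves of genus `6` contains a projective
line: there is a morphism over the complex numbers from the projective line to it which takes
different values at the points `-1` and infinity. -/
theorem result (𝓜 : CoarseModuliSpace 6) :
    ∃ f : ProjLine ⟶ 𝓜.M, f ≫ 𝓜.str = ProjLine.str ∧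
      ProjLine.pt (-1) ≫ f ≠ ProjLine.infty ≫ f :=
  main6 𝓜

end Pool.Agent.Results.MP_2eb777_ag.ProjLineInM6
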